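import Mathlib
import Pool.Agent.H361R2.InfSeq

/-!
# Exact prime patterns together with the values of countably many colourings
-/

set_option autoImplicit false

namespace Pool.Agent.Q137.EW

open Filter Pool.Agent.H361R2.Inf

/-- the value of a form -/
def val (f : ℤ × ℤ) (n : ℕ) : ℕ := (f.1 * n + f.2).toNat

theorem colours {G : Set (ℤ × ℤ)}
    (hex : ∀ T : Finset (ℤ × ℤ), (∀ f ∈ T, 1 ≤ f.1) →
      {n : ℕ | ∀ f ∈ T, (Nat.Prime (val f n) ↔ f ∈ G)}.Infinite)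
    (k : ℕ → ℕ) (c : ∀ i, ℕ → Fin (k i)) :
    ∃ κ : ∀ i, ℤ × ℤ → Fin (k i), ∀ (T : Finset (ℤ × ℤ)) (N : ℕ), (∀ f ∈ T, 1 ≤ f.1) →
      {n : ℕ | (∀ f ∈ T, (Nat.Prime (val f n) ↔ f ∈ G)) ∧
        ∀ i < N, ∀ f ∈ T, c i (val f n) = κ i f}.Infinite := by
  classical
  obtain ⟨e, he⟩ := exists_surjective_nat (ℤ × ℤ)
  let T : ℕ → Finset (ℤ × ℤ) := fun m => ((Finset.range m).image e).filter (fun f => 1 ≤ f.1)
  have hT1 : ∀ m, ∀ f ∈ T m, 1 ≤ f.1 := fun m f hf => (Finset.mem_filter.1 hf).2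
  have hT2 : ∀ f : ℤ × ℤ, 1 ≤ f.1 → ∃ m₀, ∀ m ≥ m₀, f ∈ T m := by
    intro f hf
    obtain ⟨a, ha⟩ := he f
    refine ⟨a + 1, fun m hm => Finset.mem_filter.2 ⟨Finset.mem_image.2 ⟨a, ?_, ha⟩, hf⟩⟩
    rw [Finset.mem_range]
    omega
  have hsel : ∀ m N : ℕ, ∃ n, N < n ∧ ∀ f ∈ T m, (Nat.Prime (val f n) ↔ f ∈ G) := by
    intro m N
    obtain ⟨n, hn1, hn2⟩ := (hex (T m) (hT1 m)).exists_gt N
    exact ⟨n, hn2, hn1⟩
  choose s hs1 hs2 using hsel
  let n : ℕ → ℕ := fun m => Nat.rec (s 0 0) (fun j x => s (j + 1) x) m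
  have hn : ∀ m, n (m + 1) = s (m + 1) (n m) := fun m => rfl
  have hnm : StrictMono n := strictMono_nat_of_lt_succ fun m => by
    rw [hn]
    exact hs1 _ _
  have hnT : ∀ m, ∀ f ∈ T m, (Nat.Prime (val f (n m)) ↔ f ∈ G) := by
    intro m
    rcases m with _ | m
    · exact hs2 0 0
    · rw [hn]
      exact hs2 (m + 1) (n m)
  let U : Ultrafilter ℕ := hyperfilter ℕ
  have hU : (U : Filter ℕ) ≤ atTop := by
    rw [← Nat.cofinite_eq_atTop]
    exact hyperfilter_le_cofinite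
  have hev : ∀ f : ℤ × ℤ, 1 ≤ f.1 → ∀ᶠ m in (U : Filter ℕ),
      (Nat.Prime (val f (n m)) ↔ f ∈ G) := by
    intro f hf
    obtain ⟨m₀, hm₀⟩ := hT2 f hf
    exact hU (eventually_atTop.2 ⟨m₀, fun m hm => hnT m f (hm₀ m hm)⟩)
  have hcol : ∀ (i : ℕ) (f : ℤ × ℤ), ∃ a : Fin (k i), ∀ᶠ m in (U : Filter ℕ),
      c i (val f (n m)) = a := by
    intro i f
    have h3 : (⋃ a : Fin (k i), {m : ℕ | c i (val f (n m)) = a}) ∈ U := by
      have : (⋃ a : Fin (k i), {m : ℕ | c i (val f (n m)) = a}) = Set.univ := by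
        rw [Set.eq_univ_iff_forall]
        intro m
        exact Set.mem_iUnion.2 ⟨_, rfl⟩
      rw [this]
      exact Filter.univ_mem
    have h4 := (Ultrafilter.finite_biUnion_mem_iff (f := U) (is := (Set.univ : Set (Fin (k i))))
      (s := fun a => {m : ℕ | c i (val f (n m)) = a}) Set.finite_univ).1 (by
        rw [Set.biUnion_univ]
        exact h3)
    obtain ⟨a, -, ha⟩ := h4
    exact ⟨a, ha⟩
  choose κ hκ using hcol
  refine ⟨κ, fun S N hS => ?_⟩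
  have h1 : ∀ᶠ m in (U : Filter ℕ), ∀ f ∈ S, (Nat.Prime (val f (n m)) ↔ f ∈ G) := by
    rw [Filter.eventually_all_finset]
    intro f hf
    exact hev f (hS f hf)
  have h2 : ∀ᶠ m in (U : Filter ℕ), ∀ i ∈ Finset.range N, ∀ f ∈ S, c i (val f (n m)) = κ i f := by
    rw [Filter.eventually_all_finset]
    intro i _
    rw [Filter.eventually_all_finset]
    intro f _
    exact hκ i f
  have h3 : {m : ℕ | (∀ f ∈ S, (Nat.Prime (val f (n m)) ↔ f ∈ G)) ∧
      ∀ i < N, ∀ f ∈ S, c i (val f (n m)) = κ i f}.Infinite := by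
    intro hfin
    have h4 := hfin.compl_mem_hyperfilter
    have h5 : {m : ℕ | (∀ f ∈ S, (Nat.Prime (val f (n m)) ↔ f ∈ G)) ∧
      ∀ i < N, ∀ f ∈ S, c i (val f (n m)) = κ i f} ∈ hyperfilter ℕ := by
      have h6 := h1.and h2
      filter_upwards [h6] with m hm
      exact ⟨hm.1, fun i hi f hf => hm.2 i (Finset.mem_range.2 hi) f hf⟩
    have h6 := Filter.inter_mem h5 h4
    rw [Set.inter_compl_self] at h6
    exact Filter.empty_notMem _ h6
  refine (h3.image hnm.injective.injOn).mono ?_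
  rintro _ ⟨m, hm, rfl⟩
  exact hm

/-- exact patterns inside an admissible sequence, in a residue class, with colours -/
theorem main (q : ℕ) (hq : 1 ≤ q) (r : ℤ) (s : ℕ → ℤ) (hs : Function.Injective s)
    (hadm : ∀ p : ℕ, p.Prime → ∃ m : ℕ, ∀ i, ¬ (p : ℤ) ∣ q * m + r + s i)
    (k : ℕ → ℕ) (c : ∀ i, ℕ → Fin (k i)) (ε : ℝ) (hε : 0 < ε) :
    ∃ (I : Set ℕ) (κ : ∀ i, ℤ → Fin (k i)),
      (∃ᶠ X : ℕ in atTop, (Real.log X) ^ (1 - ε) ≤ ((I ∩ Set.Iio X).ncard : ℝ)) ∧ I.Infinite ∧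
      ∀ M : ℕ, {n : ℕ | (n : ℤ) ≡ r [ZMOD q] ∧
        (∀ y : ℤ, |y| ≤ M → (((n : ℤ) + y).toNat.Prime ↔ ∃ i ∈ I, s i = y)) ∧
        ∀ a < M, ∀ y : ℤ, |y| ≤ M → c a ((n : ℤ) + y).toNat = κ a y}.Infinite := by
  have hq' : (1 : ℤ) ≤ q := by exact_mod_cast hq
  have hcop : ∀ i, IsCoprime (q : ℤ) (r + s i) := by
    intro i
    rw [Int.isCoprime_iff_gcd_eq_one]
    by_contra hne
    obtain ⟨p, hp, hpd⟩ := Nat.exists_prime_and_dvd hne
    obtain ⟨m, hm⟩ := hadm p hp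
    apply hm i
    have h1 : (p : ℤ) ∣ q := (Int.natCast_dvd_natCast.2 hpd).trans (Int.gcd_dvd_left _ _)
    have h2 : (p : ℤ) ∣ r + s i := (Int.natCast_dvd_natCast.2 hpd).trans (Int.gcd_dvd_right _ _)
    have : (q : ℤ) * m + r + s i = q * m + (r + s i) := by ring
    rw [this]
    exact dvd_add (h1.mul_right _) h2
  obtain ⟨I, hI1, hI2, hI3⟩ := seq_exact (fun _ => (q : ℤ)) (fun i => r + s i) (fun _ => hq') hcop
    (by
      intro i j hij
      have := (Prod.ext_iff.1 hij).2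
      simp only at this
      exact hs (by linarith)) ε hε
  have hI2' := hI2 (by
    intro p hp
    obtain ⟨m, hm⟩ := hadm p hp
    refine ⟨m, fun i hd => hm i ?_⟩
    have : (q : ℤ) * m + r + s i = q * m + (r + s i) := by ring
    rw [this]
    exact hd)
  obtain ⟨κ, hκ⟩ := colours (G := {f | ∃ i ∈ I, f = ((q : ℤ), r + s i)}) (fun T hT => hI3 T hT) k c
  refine ⟨I, fun a y => κ a ((q : ℤ), r + y), hI2', hI1, fun M => ?_⟩
  have h1 := hκ ((Finset.Icc (-(M : ℤ)) M).image (fun y : ℤ => ((q : ℤ), r + y))) M (by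
    intro f hf
    obtain ⟨y, _, rfl⟩ := Finset.mem_image.1 hf
    exact hq')
  have h2 : ({n : ℕ | (∀ f ∈ ((Finset.Icc (-(M : ℤ)) M).image (fun y : ℤ => ((q : ℤ), r + y))),
      (Nat.Prime (val f n) ↔ f ∈ {f | ∃ i ∈ I, f = ((q : ℤ), r + s i)})) ∧
        ∀ i < M, ∀ f ∈ ((Finset.Icc (-(M : ℤ)) M).image (fun y : ℤ => ((q : ℤ), r + y))),
          c i (val f n) = κ i f} ∩ {n : ℕ | r.natAbs ≤ n}).Infinite := by
    intro hfin
    apply h1
    refine (hfin.union (Set.finite_lt_nat r.natAbs)).subset ?_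
    intro n hn
    by_cases h : r.natAbs ≤ n
    · exact Or.inl ⟨hn, h⟩
    · exact Or.inr (by simpa using h)
  have hpos : ∀ n : ℕ, r.natAbs ≤ n → 0 ≤ (q : ℤ) * n + r := by
    intro n hn
    have h3 : (n : ℤ) ≤ q * n := by nlinarith [Int.natCast_nonneg n]
    have h4 : |r| ≤ (n : ℤ) := by
      rw [Int.abs_eq_natAbs]
      exact_mod_cast hn
    have := neg_abs_le r
    linarith
  have hinj : Set.InjOn (fun n : ℕ => ((q : ℤ) * n + r).toNat) {n : ℕ | r.natAbs ≤ n} := by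
    intro m hm n hn hmn
    have h5 := hpos m hm
    have h6 := hpos n hn
    simp only at hmn
    have h7 : (q : ℤ) * m + r = q * n + r := by omega
    have h8 : (q : ℤ) * m = q * n := by linarith
    have h9 := mul_left_cancel₀ (by omega : (q : ℤ) ≠ 0) h8
    exact_mod_cast h9
  refine (h2.image (hinj.mono Set.inter_subset_right)).mono ?_
  rintro _ ⟨n, ⟨⟨hn1, hn2⟩, hn3⟩, rfl⟩
  have h0 := hpos n hn3
  have hcast : ((((q : ℤ) * n + r).toNat : ℕ) : ℤ) = q * n + r := Int.toNat_of_nonneg h0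
  have hval : ∀ y : ℤ, val ((q : ℤ), r + y) n = ((((q : ℤ) * n + r).toNat : ℕ) + y : ℤ).toNat := by
    intro y
    unfold val
    rw [hcast]
    congr 1
    ring
  have hmem : ∀ y : ℤ, |y| ≤ M → ((q : ℤ), r + y) ∈
      ((Finset.Icc (-(M : ℤ)) M).image (fun y : ℤ => ((q : ℤ), r + y))) := by
    intro y hy
    rw [abs_le] at hy
    exact Finset.mem_image.2 ⟨y, Finset.mem_Icc.2 hy, rfl⟩
  refine ⟨?_, fun y hy => ?_, fun a ha y hy => ?_⟩
  · rw [hcast]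
    exact Int.modEq_iff_dvd.2 ⟨-n, by ring⟩
  · have h3 := hn1 _ (hmem y hy)
    rw [hval y] at h3
    rw [h3]
    constructor
    · rintro ⟨i, hi, hf⟩
      have := (Prod.ext_iff.1 hf).2
      simp only at this
      exact ⟨i, hi, by linarith⟩
    · rintro ⟨i, hi, rfl⟩
      exact ⟨i, hi, rfl⟩
  · have h3 := hn2 a ha _ (hmem y hy)
    rw [hval y] at h3
    exact h3

end Pool.Agent.Q137.EW
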