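import Mathlib
import Pool.Agent.Q137.EW.Col

/-!
# Exact windows around primes, of near-logarithmic size
-/

set_option autoImplicit false

namespace Pool.Agent.Q137.EW

open Filter Pool.Agent.H361R2.Inf

/-- the sequence `4 q² i²` is admissible in every residue class prime to `q` -/
theorem adm_sq (q : ℕ) (r : ℤ) (hqr : IsCoprime r (q : ℤ)) (p : ℕ) (hp : p.Prime) :
    ∃ m : ℕ, ∀ i : ℕ, ¬ (p : ℤ) ∣ q * m + r + (4 * q ^ 2 * i ^ 2 : ℤ) := by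
  have := Fact.mk hp
  by_cases hpq : p ∣ q
  · refine ⟨0, fun i hd => ?_⟩
    have h1 : (p : ℤ) ∣ q := by exact_mod_cast hpq
    have h2 : (p : ℤ) ∣ r := by
      have e : r = (q * (0 : ℕ) + r + (4 * q ^ 2 * i ^ 2 : ℤ)) - q * (4 * q * i ^ 2) := by
        push_cast
        ring
      rw [e]
      exact dvd_sub hd (h1.mul_right _)
    have h3 := hqr.isUnit_of_dvd' h2 h1
    rw [Int.isUnit_iff_natAbs_eq] at h3
    simp at h3
    exact hp.one_lt.ne' h3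
  · have hqz : (q : ZMod p) ≠ 0 := by
      intro h
      exact hpq ((ZMod.natCast_eq_zero_iff _ _).mp h)
    -- a target residue `t` such that `t + (2 q i)²` never vanishes
    obtain ⟨t, ht⟩ : ∃ t : ZMod p, ∀ i : ℕ, t + 4 * (q : ZMod p) ^ 2 * (i : ZMod p) ^ 2 ≠ 0 := by
      by_cases h2 : p = 2
      · subst h2
        refine ⟨1, fun i => ?_⟩
        have h4 : ((4 : ℕ) : ZMod 2) = 0 := (ZMod.natCast_eq_zero_iff 4 2).2 ⟨2, rfl⟩
        push_cast at h4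
        rw [h4]
        simp
      · obtain ⟨a, ha⟩ := FiniteField.exists_nonsquare (F := ZMod p) (by
          rw [ZMod.ringChar_zmod_n]
          exact h2)
        refine ⟨-a, fun i h => ha ?_⟩
        refine ⟨2 * (q : ZMod p) * (i : ZMod p), ?_⟩
        have h3 : a = 4 * (q : ZMod p) ^ 2 * (i : ZMod p) ^ 2 := neg_add_eq_zero.mp h
        rw [h3]
        ring
    refine ⟨((t - (r : ZMod p)) * (q : ZMod p)⁻¹).val, fun i hd => ht i ?_⟩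
    have hz : ((q * ((((t - (r : ZMod p)) * (q : ZMod p)⁻¹).val : ℕ) : ℤ) + r +
        (4 * q ^ 2 * i ^ 2 : ℤ) : ℤ) : ZMod p) = 0 := (ZMod.intCast_zmod_eq_zero_iff_dvd _ _).2 hd
    push_cast at hz
    rw [ZMod.natCast_zmod_val] at hz
    have e : (q : ZMod p) * ((t - (r : ZMod p)) * (q : ZMod p)⁻¹) = t - r := by
      field_simp
    rw [e] at hz
    rw [← hz]
    ring

theorem logDense_image (q e : ℕ) (hq : 1 ≤ q) {θ θ' : ℝ} (hθ : 0 ≤ θ) (hθθ' : θ < θ') {I : Set ℕ}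
    (hI : LogDense θ' I) (he : ∀ i ∈ I, e ≤ i) :
    LogDense θ {j : ℕ | ∃ i ∈ I, 4 * q ^ 2 * i ^ 2 = 4 * q ^ 2 * e ^ 2 + j} := by
  unfold LogDense at *
  have h1 : Tendsto (fun X : ℕ => (Real.log X) ^ (θ' - θ)) atTop atTop :=
    (tendsto_rpow_atTop (by linarith)).comp
      (Real.tendsto_log_atTop.comp tendsto_natCast_atTop_atTop)
  have h := (hI.and_eventually ((h1.eventually_ge_atTop (3 ^ θ)).and (eventually_ge_atTop
    (4 * q ^ 2))))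
  rw [Filter.frequently_atTop] at h ⊢
  intro a
  obtain ⟨X, hXa, h2, h3, h4⟩ := h (a + 1)
  have hq2 : 1 ≤ q ^ 2 := Nat.one_le_pow _ _ hq
  have hX1 : 4 ≤ X := by omega
  refine ⟨4 * q ^ 2 * X ^ 2, by nlinarith, ?_⟩
  have hX : (4 * q ^ 2 : ℝ) ≤ X := by exact_mod_cast h4
  have hX4 : (4 : ℝ) ≤ X := by exact_mod_cast hX1
  have hX0 : (0 : ℝ) < X := by linarith
  have hq0 : (0 : ℝ) < 4 * (q : ℝ) ^ 2 := by
    have : (1 : ℝ) ≤ q := by exact_mod_cast hq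
    positivity
  have hq1 : (1 : ℝ) ≤ 4 * (q : ℝ) ^ 2 := by
    have : (1 : ℝ) ≤ (q : ℝ) ^ 2 := by exact_mod_cast hq2
    linarith
  have hl4 : Real.log (4 * (q : ℝ) ^ 2) ≤ Real.log X := Real.log_le_log hq0 hX
  have hl40 : 0 ≤ Real.log (4 * (q : ℝ) ^ 2) := Real.log_nonneg hq1
  have hl : 0 < Real.log X := Real.log_pos (by linarith)
  have e1 : Real.log ((4 * q ^ 2 * X ^ 2 : ℕ) : ℝ) = Real.log (4 * (q : ℝ) ^ 2) + 2 * Real.log X := by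
    push_cast
    rw [Real.log_mul (by positivity) (by positivity), Real.log_pow]
    norm_num
  have hinj : Set.InjOn (fun i : ℕ => 4 * q ^ 2 * i ^ 2 - 4 * q ^ 2 * e ^ 2) (I ∩ Set.Iio X) := by
    intro i hi j hj hij
    simp only at hij
    have h5 : 4 * q ^ 2 * e ^ 2 ≤ 4 * q ^ 2 * i ^ 2 :=
      Nat.mul_le_mul_left _ (Nat.pow_le_pow_left (he i hi.1) 2)
    have h6 : 4 * q ^ 2 * e ^ 2 ≤ 4 * q ^ 2 * j ^ 2 :=
      Nat.mul_le_mul_left _ (Nat.pow_le_pow_left (he j hj.1) 2)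
    have h7 : 4 * q ^ 2 * i ^ 2 = 4 * q ^ 2 * j ^ 2 := by omega
    have h8 : i ^ 2 = j ^ 2 := Nat.eq_of_mul_eq_mul_left (by positivity) h7
    exact Nat.pow_left_injective (n := 2) (by norm_num) h8
  have hsub : (fun i : ℕ => 4 * q ^ 2 * i ^ 2 - 4 * q ^ 2 * e ^ 2) '' (I ∩ Set.Iio X) ⊆
      {j : ℕ | ∃ i ∈ I, 4 * q ^ 2 * i ^ 2 = 4 * q ^ 2 * e ^ 2 + j} ∩
        Set.Iio (4 * q ^ 2 * X ^ 2) := by
    rintro _ ⟨i, ⟨hi, hiX⟩, rfl⟩
    have h5 : 4 * q ^ 2 * e ^ 2 ≤ 4 * q ^ 2 * i ^ 2 :=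
      Nat.mul_le_mul_left _ (Nat.pow_le_pow_left (he i hi) 2)
    refine ⟨⟨i, hi, by simp only; omega⟩, ?_⟩
    simp only [Set.mem_Iio] at hiX ⊢
    have h6 : i ^ 2 < X ^ 2 := Nat.pow_lt_pow_left hiX (by norm_num)
    have h7 : 4 * q ^ 2 * i ^ 2 < 4 * q ^ 2 * X ^ 2 := Nat.mul_lt_mul_of_pos_left h6 (by positivity)
    omega
  have hcard : ((I ∩ Set.Iio X).ncard : ℝ) ≤
      (({j : ℕ | ∃ i ∈ I, 4 * q ^ 2 * i ^ 2 = 4 * q ^ 2 * e ^ 2 + j} ∩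
        Set.Iio (4 * q ^ 2 * X ^ 2)).ncard : ℝ) := by
    rw [← hinj.ncard_image]
    exact_mod_cast Set.ncard_le_ncard hsub ((Set.finite_Iio _).inter_of_right _)
  refine le_trans ?_ hcard
  refine le_trans ?_ h2
  rw [e1]
  calc (Real.log (4 * (q : ℝ) ^ 2) + 2 * Real.log X) ^ θ ≤ (3 * Real.log X) ^ θ :=
        Real.rpow_le_rpow (by positivity) (by linarith) hθ
    _ = 3 ^ θ * (Real.log X) ^ θ := Real.mul_rpow (by norm_num) hl.le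
    _ ≤ (Real.log X) ^ (θ' - θ) * (Real.log X) ^ θ := by gcongr
    _ = (Real.log X) ^ θ' := by
        rw [← Real.rpow_add hl]
        congr 1
        ring

/-- exact windows around primes -/
theorem windows (q : ℕ) (hq : 1 ≤ q) (r : ℤ) (hqr : IsCoprime r (q : ℤ))
    (k : ℕ → ℕ) (c : ∀ i, ℕ → Fin (k i)) (ε : ℝ) (hε : 0 < ε) :
    ∃ (B : Set ℕ) (κ : ∀ i, ℤ → Fin (k i)), 0 ∈ B ∧
      (∃ᶠ X : ℕ in atTop, (Real.log X) ^ (1 - ε) ≤ ((B ∩ Set.Iio X).ncard : ℝ)) ∧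
      ∀ M : ℕ, {p : ℕ | (p : ℤ) ≡ r [ZMOD q] ∧
        (∀ y : ℤ, |y| ≤ M → (((p : ℤ) + y).toNat.Prime ↔ ∃ b ∈ B, (b : ℤ) = y)) ∧
        ∀ a < M, ∀ y : ℤ, |y| ≤ M → c a ((p : ℤ) + y).toNat = κ a y}.Infinite := by
  classical
  set e' : ℝ := min ε (1 / 2) with he'
  have he0 : 0 < e' := lt_min hε (by norm_num)
  have he1 : e' ≤ 1 / 2 := min_le_right _ _
  have he2 : e' ≤ ε := min_le_left _ _
  obtain ⟨I, κ, h1, h2, h3⟩ := main q hq r (fun i : ℕ => (4 * q ^ 2 * i ^ 2 : ℤ))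
    (by
      intro i j hij
      simp only at hij
      have h4 : 4 * q ^ 2 * i ^ 2 = 4 * q ^ 2 * j ^ 2 := by exact_mod_cast hij
      have h8 : i ^ 2 = j ^ 2 := Nat.eq_of_mul_eq_mul_left (by positivity) h4
      exact Nat.pow_left_injective (n := 2) (by norm_num) h8)
    (fun p hp => adm_sq q r hqr p hp) k c (e' / 2) (by positivity)
  obtain ⟨e, heI, hemin⟩ : ∃ e ∈ I, ∀ i ∈ I, e ≤ i :=
    ⟨sInf I, Nat.sInf_mem h2.nonempty, fun i hi => Nat.sInf_le hi⟩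
  refine ⟨{j : ℕ | ∃ i ∈ I, 4 * q ^ 2 * i ^ 2 = 4 * q ^ 2 * e ^ 2 + j},
    fun a y => κ a ((4 * q ^ 2 * e ^ 2 : ℕ) + y), ⟨e, heI, by omega⟩, ?_, fun M => ?_⟩
  · have h4 : LogDense (1 - e' / 2) I := h1
    have h5 := logDense_image q e hq (θ := 1 - e') (θ' := 1 - e' / 2) (by linarith) (by linarith)
      h4 hemin
    exact h5.mono (by linarith)
  · have h4 := h3 (4 * q ^ 2 * e ^ 2 + M)
    have hinj : Set.InjOn (fun n : ℕ => n + 4 * q ^ 2 * e ^ 2)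
        {n : ℕ | (n : ℤ) ≡ r [ZMOD q] ∧
        (∀ y : ℤ, |y| ≤ (4 * q ^ 2 * e ^ 2 + M : ℕ) → (((n : ℤ) + y).toNat.Prime ↔
          ∃ i ∈ I, (4 * q ^ 2 * i ^ 2 : ℤ) = y)) ∧
        ∀ a < 4 * q ^ 2 * e ^ 2 + M, ∀ y : ℤ, |y| ≤ (4 * q ^ 2 * e ^ 2 + M : ℕ) →
          c a ((n : ℤ) + y).toNat = κ a y} := by
      intro m _ n _ hmn
      simpa using hmn
    refine (h4.image hinj).mono ?_
    rintro _ ⟨n, ⟨hn1, hn2, hn3⟩, rfl⟩
    have hcast : ((n + 4 * q ^ 2 * e ^ 2 : ℕ) : ℤ) = n + 4 * q ^ 2 * e ^ 2 := by push_cast; ring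
    refine ⟨?_, fun y hy => ?_, fun a ha y hy => ?_⟩
    · rw [hcast]
      have : (n : ℤ) + 4 * q ^ 2 * e ^ 2 ≡ n [ZMOD q] :=
        Int.modEq_iff_dvd.2 ⟨-(4 * q * e ^ 2), by ring⟩
      exact this.trans hn1
    · have hy' : |(4 * q ^ 2 * e ^ 2 : ℤ) + y| ≤ (4 * q ^ 2 * e ^ 2 + M : ℕ) := by
        push_cast
        have h5 := abs_add_le (4 * q ^ 2 * e ^ 2 : ℤ) y
        have h6 : |(4 * q ^ 2 * e ^ 2 : ℤ)| = 4 * q ^ 2 * e ^ 2 := abs_of_nonneg (by positivity)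
        rw [h6] at h5
        linarith
      have h5 := hn2 _ hy'
      have h6 : ((n + 4 * q ^ 2 * e ^ 2 : ℕ) : ℤ) + y = (n : ℤ) + (4 * q ^ 2 * e ^ 2 + y) := by
        rw [hcast]
        ring
      rw [h6, h5]
      constructor
      · rintro ⟨i, hi, hie⟩
        have h7 : 4 * q ^ 2 * e ^ 2 ≤ 4 * q ^ 2 * i ^ 2 :=
          Nat.mul_le_mul_left _ (Nat.pow_le_pow_left (hemin i hi) 2)
        refine ⟨4 * q ^ 2 * i ^ 2 - 4 * q ^ 2 * e ^ 2, ⟨i, hi, by omega⟩, ?_⟩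
        push_cast [Nat.cast_sub h7]
        linarith
      · rintro ⟨b, ⟨i, hi, hib⟩, rfl⟩
        refine ⟨i, hi, ?_⟩
        exact_mod_cast hib
    · have hy' : |(4 * q ^ 2 * e ^ 2 : ℤ) + y| ≤ (4 * q ^ 2 * e ^ 2 + M : ℕ) := by
        push_cast
        have h5 := abs_add_le (4 * q ^ 2 * e ^ 2 : ℤ) y
        have h6 : |(4 * q ^ 2 * e ^ 2 : ℤ)| = 4 * q ^ 2 * e ^ 2 := abs_of_nonneg (by positivity)
        rw [h6] at h5
        linarith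
      have h5 := hn3 a (by omega) _ hy'
      have h6 : ((n + 4 * q ^ 2 * e ^ 2 : ℕ) : ℤ) + y = (n : ℤ) + (4 * q ^ 2 * e ^ 2 + y) := by
        rw [hcast]
        ring
      rw [h6, h5]
      push_cast
      rfl

end Pool.Agent.Q137.EW
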